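import Pool.Agent.W811.LW.Stm

set_option autoImplicit false

open Finset Filter Topology
open scoped ENNReal

namespace Pool.Agent.W423.LW

open Pool.Agent.W811.LW

theorem et_nonneg (G : ℝ) (hG : 0 ≤ G) (i : ℤ) : 0 ≤ et G i := by
  unfold et
  split_ifs
  · exact zpow_nonneg hG i
  · exact zpow_nonneg hG _

theorem et_pred (G : ℝ) (hG : 1 ≤ G) (i : ℤ) : et G (i - 1) ≤ G⁻¹ * et G i := by
  have hG0 : G ≠ 0 := by positivity
  have hGp : 0 < G := by positivity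
  unfold et
  by_cases h1 : 0 ≤ i - 1
  · rw [if_pos h1, if_pos (by omega : (0 : ℤ) ≤ i), zpow_sub_one₀ hG0, mul_comm]
  · rw [if_neg h1]
    by_cases h2 : 0 ≤ i
    · have hi : i = 0 := by omega
      subst hi
      rw [if_pos le_rfl, zpow_zero, mul_one]
      have h3 : G ^ (3 * ((0 : ℤ) - 1)) ≤ G ^ (-1 : ℤ) :=
        zpow_le_zpow_right₀ hG (by norm_num)
      rwa [zpow_neg_one] at h3
    · rw [if_neg h2]
      have h3 : G ^ (3 * (i - 1)) ≤ G ^ (3 * i - 1) := zpow_le_zpow_right₀ hG (by omega)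
      rw [zpow_sub_one₀ hG0] at h3
      rw [mul_comm (G⁻¹)]
      exact h3

theorem et_pred' (G : ℝ) (hG : 1 ≤ G) (i : ℤ) : et G (i - 1) ≤ et G i := by
  refine (et_pred G hG i).trans ?_
  have h1 : G⁻¹ ≤ 1 := inv_le_one_of_one_le₀ hG
  have h2 := et_nonneg G (by linarith) i
  nlinarith

theorem rs_nonneg (y : ℝ) : 0 ≤ rs y := inv_nonneg.2 (Real.sqrt_nonneg y)

/-- `y ≤ 2 D² y'` gives `rs y' ≤ 2 D rs y`. -/
theorem rs_le (D y y' : ℝ) (hD : 1 ≤ D) (hy : 0 < y) (hy' : 0 < y') (h : y ≤ 2 * D ^ 2 * y') :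
    rs y' ≤ 2 * D * rs y := by
  unfold rs
  have h1 : Real.sqrt y ≤ 2 * D * Real.sqrt y' := by
    have h2 : 2 * D * Real.sqrt y' = Real.sqrt ((2 * D) ^ 2 * y') := by
      rw [Real.sqrt_mul (by positivity), Real.sqrt_sq (by positivity)]
    rw [h2]
    apply Real.sqrt_le_sqrt
    nlinarith [mul_pos (by positivity : 0 < D ^ 2) hy']
  have h3 : 0 < Real.sqrt y := Real.sqrt_pos.2 hy
  have h4 : 0 < Real.sqrt y' := Real.sqrt_pos.2 hy'
  rw [inv_eq_one_div, inv_eq_one_div, mul_one_div, div_le_div_iff₀ h4 h3]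
  linarith

theorem sv0 (h : CLV0) (hp : POS) (hd : DVL) (hk : KERN) : SV0 := by
  intro G c0 hG hc0 hc1
  have hGr : (1000 : ℝ) ≤ (G : ℝ) := by exact_mod_cast hG
  have hG1 : (1 : ℝ) ≤ (G : ℝ) := by linarith
  have hDn : 2 ≤ G ^ 4 := by
    calc 2 ≤ 1000 ^ 4 := by norm_num
      _ ≤ G ^ 4 := Nat.pow_le_pow_left hG 4
  have hcast : ((G ^ 4 : ℕ) : ℝ) = (G : ℝ) ^ 4 := by push_cast; ring
  have hD1 : (1 : ℝ) ≤ (G : ℝ) ^ 4 := one_le_pow₀ hG1
  have hD0 : (0 : ℝ) < (G : ℝ) ^ 4 := by positivity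
  obtain ⟨M, hM, hK⟩ := hk G (c0 / (1024 * ((G : ℝ) ^ 4) ^ 10)) (128 * ((G : ℝ) ^ 4) ^ 10)
    (16 * ((G : ℝ) ^ 4) ^ 4) (2 * (G : ℝ) ^ 4) hG (by positivity)
    (by have := one_le_pow₀ hD1 (n := 10); linarith)
    (by have := one_le_pow₀ hD1 (n := 4); linarith) (by linarith)
  refine ⟨M, hM, ?_⟩
  intro α β j hα hβ
  set S : ℕ → ℝ := fun m => ∑ d ∈ range ((G ^ 4) ^ 2),
    rs (yV ((G : ℝ) ^ 4) α (j + 1) 0 (β + (d : ℝ) / ((G : ℝ) ^ 4) ^ (2 * j + 2)) m) with hS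
  set T : ℕ → ℝ := fun m =>
    (1 / (((G : ℝ) ^ 4) ^ 2)) * (et G ((m : ℤ) - ((j + 1 : ℕ) : ℤ)) * S m) with hT
  have hidx : ∀ m : ℕ, ((m : ℤ) - ((j + 1 : ℕ) : ℤ)) = ((m : ℤ) - (j : ℤ)) - 1 := by
    intro m; push_cast; ring
  have hpos : ∀ m, 0 < yV ((G : ℝ) ^ 4) α j 0 β m := by
    intro m
    have h1 := (hp (G ^ 4) α c0 β j 0 m hDn hc0 hα).2.2.1
    rwa [hcast] at h1
  have hposW : ∀ m, 0 < yW ((G : ℝ) ^ 4) α j 0 β m := by
    intro m
    have h1 := (hp (G ^ 4) α c0 β j 0 m hDn hc0 hα).2.2.2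
    rwa [hcast] at h1
  have hmain := hK (fun m => (m : ℤ) - (j : ℤ)) (fun m => (j : ℤ) - (m : ℤ))
    (fun m => yV ((G : ℝ) ^ 4) α j 0 β m) (fun m => yW ((G : ℝ) ^ 4) α j 0 β m) T
    (fun a b hab => by simpa using hab) hpos hposW ?_
  · -- the sum
    have hsum : ∑ d ∈ range ((G ^ 4) ^ 2),
        FV G α (j + 1) 0 (β + (d : ℝ) / ((G : ℝ) ^ 4) ^ (2 * j + 2)) =
        (((G ^ 4) ^ 2 : ℕ) : ℝ≥0∞) * ∑' m, ENNReal.ofReal (T m) := by
      unfold FV
      rw [← Summable.tsum_finsetSum (fun i _ => ENNReal.summable), ← ENNReal.tsum_mul_left]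
      refine tsum_congr fun m => ?_
      rw [← ENNReal.ofReal_sum_of_nonneg]
      · have hc : (((G ^ 4) ^ 2 : ℕ) : ℝ≥0∞) = ENNReal.ofReal (((G : ℝ) ^ 4) ^ 2) := by
          rw [← ENNReal.ofReal_natCast]
          congr 1
          push_cast
          ring
        rw [hc, ← ENNReal.ofReal_mul (by positivity)]
        congr 1
        simp only [hT, hS]
        rw [← Finset.mul_sum]
        field_simp
      · intro d _
        exact mul_nonneg (et_nonneg _ (by linarith) _) (rs_nonneg _)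
    rw [hsum]
    refine mul_le_mul_right ?_ _
    exact hmain
  · -- the classes
    intro m
    obtain ⟨hA, hB⟩ := h (G ^ 4) c0 α β j m hDn hc0 hα
    rw [hcast] at hA hB
    have he := et_nonneg (G : ℝ) (by linarith) ((m : ℤ) - (j : ℤ))
    have he' := et_nonneg (G : ℝ) (by linarith) ((m : ℤ) - (j : ℤ) - 1)
    have hrs := rs_nonneg (yV ((G : ℝ) ^ 4) α j 0 β m)
    rcases hB with hB | ⟨v, hv, w, hw, hcr, hNv, hNw⟩
    · left
      have h1 : T m ≤ et G ((m : ℤ) - (j : ℤ) - 1) * (16 * rs (yV ((G : ℝ) ^ 4) α j 0 β m)) := by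
        simp only [hT, hidx]
        calc (1 / (((G : ℝ) ^ 4) ^ 2)) * (et G ((m : ℤ) - (j : ℤ) - 1) * S m)
            ≤ (1 / (((G : ℝ) ^ 4) ^ 2)) * (et G ((m : ℤ) - (j : ℤ) - 1) *
              (((G : ℝ) ^ 4) ^ 2 * (16 * rs (yV ((G : ℝ) ^ 4) α j 0 β m)))) := by
              apply mul_le_mul_of_nonneg_left _ (by positivity)
              exact mul_le_mul_of_nonneg_left hB he'
          _ = _ := by field_simp
      refine h1.trans ?_
      have h2 := et_pred (G : ℝ) hG1 ((m : ℤ) - (j : ℤ))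
      have h3 : (G : ℝ)⁻¹ ≤ 1 / 1000 := by
        rw [inv_eq_one_div]
        exact one_div_le_one_div_of_le (by norm_num) hGr
      have h4 : et G ((m : ℤ) - (j : ℤ) - 1) ≤ (1 / 1000) * et G ((m : ℤ) - (j : ℤ)) :=
        h2.trans (mul_le_mul_of_nonneg_right h3 he)
      have h5 : et G ((m : ℤ) - (j : ℤ) - 1) * (16 * rs (yV ((G : ℝ) ^ 4) α j 0 β m)) ≤
          ((1 / 1000) * et G ((m : ℤ) - (j : ℤ))) * (16 * rs (yV ((G : ℝ) ^ 4) α j 0 β m)) :=
        mul_le_mul_of_nonneg_right h4 (by positivity)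
      have h6 : 0 ≤ et G ((m : ℤ) - (j : ℤ)) * rs (yV ((G : ℝ) ^ 4) α j 0 β m) :=
        mul_nonneg he hrs
      nlinarith
    · right
      refine ⟨?_, ?_⟩
      · have h1 : S m ≤ ((G : ℝ) ^ 4) ^ 2 * (2 * (G : ℝ) ^ 4 *
            rs (yV ((G : ℝ) ^ 4) α j 0 β m)) := by
          have h2 : ∀ d ∈ range ((G ^ 4) ^ 2),
              rs (yV ((G : ℝ) ^ 4) α (j + 1) 0 (β + (d : ℝ) / ((G : ℝ) ^ 4) ^ (2 * j + 2)) m) ≤
              2 * (G : ℝ) ^ 4 * rs (yV ((G : ℝ) ^ 4) α j 0 β m) := by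
            intro d hd'
            obtain ⟨h3, h4⟩ := hA d (mem_range.1 hd')
            exact rs_le _ _ _ hD1 (hpos m) h3 h4
          have h3 := Finset.sum_le_card_nsmul _ _ _ h2
          rw [card_range, nsmul_eq_mul] at h3
          have h4 : (((G ^ 4) ^ 2 : ℕ) : ℝ) = ((G : ℝ) ^ 4) ^ 2 := by push_cast; ring
          rw [h4] at h3
          exact h3
        simp only [hT, hidx]
        calc (1 / (((G : ℝ) ^ 4) ^ 2)) * (et G ((m : ℤ) - (j : ℤ) - 1) * S m)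
            ≤ (1 / (((G : ℝ) ^ 4) ^ 2)) * (et G ((m : ℤ) - (j : ℤ) - 1) *
              (((G : ℝ) ^ 4) ^ 2 * (2 * (G : ℝ) ^ 4 * rs (yV ((G : ℝ) ^ 4) α j 0 β m)))) := by
              apply mul_le_mul_of_nonneg_left _ (by positivity)
              exact mul_le_mul_of_nonneg_left h1 he'
          _ = et G ((m : ℤ) - (j : ℤ) - 1) *
              (2 * (G : ℝ) ^ 4 * rs (yV ((G : ℝ) ^ 4) α j 0 β m)) := by field_simp
          _ ≤ et G ((m : ℤ) - (j : ℤ)) *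
              (2 * (G : ℝ) ^ 4 * rs (yV ((G : ℝ) ^ 4) α j 0 β m)) :=
              mul_le_mul_of_nonneg_right (et_pred' _ hG1 _) (by positivity)
          _ = _ := by ring
      · have h1 := hd (G ^ 4) c0 α β j 0 m (yV ((G : ℝ) ^ 4) α j 0 β m) v w hDn hc0 hc1 hα
          (by rw [hcast]; exact hβ) (hpos m) (by rw [hcast]; exact hv) (by rw [hcast]; exact hw)
          hcr (by rw [hcast]; exact hNv) (by rw [hcast]; exact hNw)
        rw [hcast] at h1
        have hz : ∀ a b : ℕ, ((G : ℝ) ^ 4) ^ (-2 * ((a : ℤ) - (b : ℤ))) =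
            ((G : ℝ) ^ 4) ^ (2 * b) / ((G : ℝ) ^ 4) ^ (2 * a) := by
          intro a b
          have h2 : (-2 * ((a : ℤ) - (b : ℤ))) = ((2 * b : ℕ) : ℤ) - ((2 * a : ℕ) : ℤ) := by
            push_cast; ring
          rw [h2, zpow_sub₀ hD0.ne', zpow_natCast, zpow_natCast]
        rcases h1 with h1 | ⟨m', h1, h2⟩
        · left
          simp only [hz]
          exact h1
        · right
          refine ⟨m', ?_, ?_⟩
          · simp only [hz]
            exact h1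
          · simp only [hz]
            exact h2

end Pool.Agent.W423.LW
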