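import Pool.Agent.W423.LW.SV0

set_option autoImplicit false

open Finset Filter Topology
open scoped ENNReal

namespace Pool.Agent.W423.LW

open Pool.Agent.W811.LW

theorem et_succ (G : ℝ) (hG : 1 ≤ G) (i : ℤ) : et G (i + 1) ≤ G ^ 3 * et G i := by
  have hG0 : G ≠ 0 := by positivity
  unfold et
  by_cases h1 : 0 ≤ i
  · rw [if_pos h1, if_pos (by omega : (0 : ℤ) ≤ i + 1)]
    have h3 : G ^ (i + 1) ≤ G ^ (3 + i) := zpow_le_zpow_right₀ hG (by omega)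
    rw [zpow_add₀ hG0 3 i] at h3
    exact_mod_cast h3
  · rw [if_neg h1]
    by_cases h2 : 0 ≤ i + 1
    · have hi : i = -1 := by omega
      subst hi
      rw [if_pos (by norm_num)]
      have h3 : G ^ ((-1 : ℤ) + 1) = 1 := by norm_num
      have h4 : G ^ 3 * G ^ (3 * (-1 : ℤ)) = 1 := by
        have h5 : (3 * (-1 : ℤ)) = -(3 : ℤ) := by norm_num
        rw [h5, zpow_neg]
        have h6 : G ^ (3 : ℤ) = G ^ 3 := by exact_mod_cast rfl
        rw [h6]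
        exact mul_inv_cancel₀ (by positivity)
      rw [h3, h4]
    · rw [if_neg h2]
      have h3 : (3 * (i + 1)) = 3 + 3 * i := by ring
      rw [h3, zpow_add₀ hG0 3 (3 * i)]
      have h6 : G ^ (3 : ℤ) = G ^ 3 := by exact_mod_cast rfl
      rw [h6]

theorem rs_sq (D : ℝ) (hD : 0 < D) : rs (D ^ 2) = D⁻¹ := by
  unfold rs
  rw [Real.sqrt_sq hD.le]

theorem sw0 (h : CLW0) (hp : POS) (hd : DWL) (hk : KERN) : SW0 := by
  intro G c0 hG hc0 hc1
  have hGr : (1000 : ℝ) ≤ (G : ℝ) := by exact_mod_cast hG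
  have hG1 : (1 : ℝ) ≤ (G : ℝ) := by linarith
  have hG0 : (0 : ℝ) < (G : ℝ) := by linarith
  have hDn : 2 ≤ G ^ 4 := by
    calc 2 ≤ 1000 ^ 4 := by norm_num
      _ ≤ G ^ 4 := Nat.pow_le_pow_left hG 4
  have hcast : ((G ^ 4 : ℕ) : ℝ) = (G : ℝ) ^ 4 := by push_cast; ring
  have hD1 : (1 : ℝ) ≤ (G : ℝ) ^ 4 := one_le_pow₀ hG1
  have hD0 : (0 : ℝ) < (G : ℝ) ^ 4 := by positivity
  obtain ⟨M, hM, hK⟩ := hk G (c0 / (1024 * ((G : ℝ) ^ 4) ^ 10)) (128 * ((G : ℝ) ^ 4) ^ 10)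
    (16 * ((G : ℝ) ^ 4) ^ 4) ((G : ℝ) ^ 3 * (2 * (G : ℝ) ^ 4)) hG (by positivity)
    (by have := one_le_pow₀ hD1 (n := 10); linarith)
    (by have := one_le_pow₀ hD1 (n := 4); linarith)
    (by have h1 := one_le_pow₀ hG1 (n := 3); nlinarith)
  refine ⟨M, hM, ?_⟩
  intro α β j hα hβ
  set S : ℕ → ℝ := fun m => ∑ d ∈ range ((G ^ 4) ^ 2),
    rs (yW ((G : ℝ) ^ 4) α (j + 1) 0 (β + (d : ℝ) / ((G : ℝ) ^ 4) ^ (2 * j + 2)) m) with hS
  set T : ℕ → ℝ := fun m =>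
    (1 / (((G : ℝ) ^ 4) ^ 2)) * (et G (((j + 1 : ℕ) : ℤ) - (m : ℤ)) * S m) with hT
  have hidx : ∀ m : ℕ, (((j + 1 : ℕ) : ℤ) - (m : ℤ)) = ((j : ℤ) - (m : ℤ)) + 1 := by
    intro m; push_cast; ring
  have hpos : ∀ m, 0 < yV ((G : ℝ) ^ 4) α j 0 β m := by
    intro m
    have h1 := (hp (G ^ 4) α c0 β j 0 m hDn hc0 hα).2.2.1
    rwa [hcast] at h1
  have hposW : ∀ m, 0 < yW ((G : ℝ) ^ 4) α j 0 β m := by
    intro m
    have h1 := (hp (G ^ 4) α c0 β j 0 m hDn hc0 hα).2.2.2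
    rwa [hcast] at h1
  have hmain := hK (fun m => (j : ℤ) - (m : ℤ)) (fun m => (m : ℤ) - (j : ℤ))
    (fun m => yW ((G : ℝ) ^ 4) α j 0 β m) (fun m => yV ((G : ℝ) ^ 4) α j 0 β m) T
    (fun a b hab => by simpa using hab) hposW hpos ?_
  · -- the sum
    have hsum : ∑ d ∈ range ((G ^ 4) ^ 2),
        FW G α (j + 1) 0 (β + (d : ℝ) / ((G : ℝ) ^ 4) ^ (2 * j + 2)) =
        (((G ^ 4) ^ 2 : ℕ) : ℝ≥0∞) * ∑' m, ENNReal.ofReal (T m) := by
      unfold FW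
      rw [← Summable.tsum_finsetSum (fun i _ => ENNReal.summable), ← ENNReal.tsum_mul_left]
      refine tsum_congr fun m => ?_
      rw [← ENNReal.ofReal_sum_of_nonneg]
      · have hc : (((G ^ 4) ^ 2 : ℕ) : ℝ≥0∞) = ENNReal.ofReal (((G : ℝ) ^ 4) ^ 2) := by
          rw [← ENNReal.ofReal_natCast]
          congr 1
          push_cast
          ring
        rw [hc, ← ENNReal.ofReal_mul (by positivity)]
        congr 1
        simp only [hT, hS]
        rw [← Finset.mul_sum]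
        field_simp
      · intro d _
        exact mul_nonneg (et_nonneg _ (by linarith) _) (rs_nonneg _)
    rw [hsum]
    refine mul_le_mul_right ?_ _
    refine hmain.trans (le_of_eq ?_)
    unfold FV FW
    rw [add_comm ((1 / 48 : ℝ≥0∞) * _) ((1 / 48 : ℝ≥0∞) * _)]
  · -- the classes
    intro m
    obtain ⟨hA, hB⟩ := h (G ^ 4) c0 α β j m hDn hc0 hα
    rw [hcast] at hA hB
    have he := et_nonneg (G : ℝ) (by linarith) ((j : ℤ) - (m : ℤ))
    have he' := et_nonneg (G : ℝ) (by linarith) ((j : ℤ) - (m : ℤ) + 1)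
    have hrs := rs_nonneg (yW ((G : ℝ) ^ 4) α j 0 β m)
    have h2 := et_succ (G : ℝ) hG1 ((j : ℤ) - (m : ℤ))
    rcases hB with hB | ⟨v, hv, w, hw, hcr, hNv, hNw⟩
    · left
      rw [rs_sq _ hD0] at hB
      have h1 : T m ≤ et G ((j : ℤ) - (m : ℤ) + 1) *
          (16 * ((G : ℝ) ^ 4)⁻¹ * rs (yW ((G : ℝ) ^ 4) α j 0 β m)) := by
        simp only [hT, hidx]
        calc (1 / (((G : ℝ) ^ 4) ^ 2)) * (et G ((j : ℤ) - (m : ℤ) + 1) * S m)
            ≤ (1 / (((G : ℝ) ^ 4) ^ 2)) * (et G ((j : ℤ) - (m : ℤ) + 1) *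
              (((G : ℝ) ^ 4) ^ 2 * (16 * ((G : ℝ) ^ 4)⁻¹ *
                rs (yW ((G : ℝ) ^ 4) α j 0 β m)))) := by
              apply mul_le_mul_of_nonneg_left _ (by positivity)
              exact mul_le_mul_of_nonneg_left hB he'
          _ = _ := by field_simp
      refine h1.trans ?_
      have h3 : (G : ℝ)⁻¹ ≤ 1 / 1000 := by
        rw [inv_eq_one_div]
        exact one_div_le_one_div_of_le (by norm_num) hGr
      have h5 : et G ((j : ℤ) - (m : ℤ) + 1) *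
          (16 * ((G : ℝ) ^ 4)⁻¹ * rs (yW ((G : ℝ) ^ 4) α j 0 β m)) ≤
          ((G : ℝ) ^ 3 * et G ((j : ℤ) - (m : ℤ))) *
          (16 * ((G : ℝ) ^ 4)⁻¹ * rs (yW ((G : ℝ) ^ 4) α j 0 β m)) :=
        mul_le_mul_of_nonneg_right h2 (by positivity)
      have h6 : 0 ≤ et G ((j : ℤ) - (m : ℤ)) * rs (yW ((G : ℝ) ^ 4) α j 0 β m) :=
        mul_nonneg he hrs
      have h7 : ((G : ℝ) ^ 3 * et G ((j : ℤ) - (m : ℤ))) *
          (16 * ((G : ℝ) ^ 4)⁻¹ * rs (yW ((G : ℝ) ^ 4) α j 0 β m)) =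
          16 * (G : ℝ)⁻¹ * (et G ((j : ℤ) - (m : ℤ)) * rs (yW ((G : ℝ) ^ 4) α j 0 β m)) := by
        have h8 : (G : ℝ) ^ 3 * ((G : ℝ) ^ 4)⁻¹ = (G : ℝ)⁻¹ := by field_simp
        calc _ = 16 * ((G : ℝ) ^ 3 * ((G : ℝ) ^ 4)⁻¹) *
              (et G ((j : ℤ) - (m : ℤ)) * rs (yW ((G : ℝ) ^ 4) α j 0 β m)) := by ring
          _ = _ := by rw [h8]
      have h9 : 16 * (G : ℝ)⁻¹ *
          (et G ((j : ℤ) - (m : ℤ)) * rs (yW ((G : ℝ) ^ 4) α j 0 β m)) ≤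
          (1 / 48) * (et G ((j : ℤ) - (m : ℤ)) * rs (yW ((G : ℝ) ^ 4) α j 0 β m)) :=
        mul_le_mul_of_nonneg_right (by linarith) h6
      exact (h5.trans (le_of_eq h7)).trans h9
    · right
      refine ⟨?_, ?_⟩
      · have h1 : S m ≤ ((G : ℝ) ^ 4) ^ 2 * (2 * (G : ℝ) ^ 4 *
            rs (yW ((G : ℝ) ^ 4) α j 0 β m)) := by
          have h2 : ∀ d ∈ range ((G ^ 4) ^ 2),
              rs (yW ((G : ℝ) ^ 4) α (j + 1) 0 (β + (d : ℝ) / ((G : ℝ) ^ 4) ^ (2 * j + 2)) m) ≤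
              2 * (G : ℝ) ^ 4 * rs (yW ((G : ℝ) ^ 4) α j 0 β m) := by
            intro d hd'
            obtain ⟨h3, h4⟩ := hA d (mem_range.1 hd')
            exact rs_le _ _ _ hD1 (hposW m) h3 h4
          have h3 := Finset.sum_le_card_nsmul _ _ _ h2
          rw [card_range, nsmul_eq_mul] at h3
          have h4 : (((G ^ 4) ^ 2 : ℕ) : ℝ) = ((G : ℝ) ^ 4) ^ 2 := by push_cast; ring
          rw [h4] at h3
          exact h3
        simp only [hT, hidx]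
        calc (1 / (((G : ℝ) ^ 4) ^ 2)) * (et G ((j : ℤ) - (m : ℤ) + 1) * S m)
            ≤ (1 / (((G : ℝ) ^ 4) ^ 2)) * (et G ((j : ℤ) - (m : ℤ) + 1) *
              (((G : ℝ) ^ 4) ^ 2 * (2 * (G : ℝ) ^ 4 * rs (yW ((G : ℝ) ^ 4) α j 0 β m)))) := by
              apply mul_le_mul_of_nonneg_left _ (by positivity)
              exact mul_le_mul_of_nonneg_left h1 he'
          _ = et G ((j : ℤ) - (m : ℤ) + 1) *
              (2 * (G : ℝ) ^ 4 * rs (yW ((G : ℝ) ^ 4) α j 0 β m)) := by field_simp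
          _ ≤ ((G : ℝ) ^ 3 * et G ((j : ℤ) - (m : ℤ))) *
              (2 * (G : ℝ) ^ 4 * rs (yW ((G : ℝ) ^ 4) α j 0 β m)) :=
              mul_le_mul_of_nonneg_right h2 (by positivity)
          _ = _ := by ring
      · have h1 := hd (G ^ 4) c0 α β j 0 m (yW ((G : ℝ) ^ 4) α j 0 β m) v w hDn hc0 hc1
          (hposW m) (by rw [hcast]; exact hv) (by rw [hcast]; exact hw)
          hcr (by rw [hcast]; exact hNv) (by rw [hcast]; exact hNw)
        rw [hcast] at h1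
        have hz : ∀ a b : ℕ, ((G : ℝ) ^ 4) ^ (-2 * ((a : ℤ) - (b : ℤ))) =
            ((G : ℝ) ^ 4) ^ (2 * b) / ((G : ℝ) ^ 4) ^ (2 * a) := by
          intro a b
          have h2 : (-2 * ((a : ℤ) - (b : ℤ))) = ((2 * b : ℕ) : ℤ) - ((2 * a : ℕ) : ℤ) := by
            push_cast; ring
          rw [h2, zpow_sub₀ hD0.ne', zpow_natCast, zpow_natCast]
        rcases h1 with h1 | ⟨m', h1, h2⟩
        · left
          simp only [hz]
          exact h1
        · right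
          refine ⟨m', ?_, ?_⟩
          · simp only [hz]
            exact h1
          · simp only [hz]
            exact h2

end Pool.Agent.W423.LW
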